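import Mathlib

/-!
# Perimeter of the convex hull of a planar random walk: definitions
-/

namespace Pool.Agent.X50.PV

open MeasureTheory ProbabilityTheory

/-- The Euclidean plane. -/
abbrev E2 : Type := EuclideanSpace ℝ (Fin 2)

variable {Ω : Type}

/-- The walk `S_k = Z_1 + ⋯ + Z_k` (the steps are indexed from `0` here). -/
noncomputable def walk (Z : ℕ → Ω → E2) (k : ℕ) (ω : Ω) : E2 := ∑ i ∈ Finset.range k, Z i ω

/-- The unit vector with angle `θ`. -/
noncomputable def dir (θ : ℝ) : E2 := !₂[Real.cos θ, Real.sin θ]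

/-- The width of `K` in direction `θ`. -/
noncomputable def width (K : Set E2) (θ : ℝ) : ℝ :=
  sSup ((fun x => inner ℝ (dir θ) x) '' K) - sInf ((fun x => inner ℝ (dir θ) x) '' K)

/-- The perimeter of a compact convex set, by Cauchy's formula (a segment has perimeter twice its
length). -/
noncomputable def perim (K : Set E2) : ℝ := ∫ θ in (0 : ℝ)..Real.pi, width K θ

/-- `L_n`, the perimeter of the convex hull of `S_0, …, S_n`. -/
noncomputable def L (Z : ℕ → Ω → E2) (n : ℕ) (ω : Ω) : ℝ :=
  perim (convexHull ℝ {x | ∃ k ≤ n, x = walk Z k ω})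

variable [MeasurableSpace Ω]

/-- The drift `μ = E Z`. -/
noncomputable def drift (P : Measure Ω) (Z : ℕ → Ω → E2) : E2 := ∫ ω, Z 0 ω ∂P

/-- The direction of the drift. -/
noncomputable def hat (v : E2) : E2 := ‖v‖⁻¹ • v

/-- Rotation by a right angle. -/
noncomputable def perp (v : E2) : E2 := !₂[-(v 1), v 0]

/-- The variance of the component of `Z` in direction `u`. -/
noncomputable def sig (P : Measure Ω) (Z : ℕ → Ω → E2) (u : E2) : ℝ :=
  ∫ ω, (inner ℝ (Z 0 ω - drift P Z) u) ^ 2 ∂P

end Pool.Agent.X50.PV
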