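import Pool.Agent.X50.PV.Prob

/-!
# The steps are i.i.d.
-/

namespace Pool.Agent.X50.PV

open MeasureTheory ProbabilityTheory Measure Filter Topology

theorem indep : iIndepFun Z0 Pm := by
  have h := iIndepFun_infinitePi (P := fun _ : ℕ => ν) (X := fun _ : ℕ => g)
    (fun _ => measurable_g)
  exact h

theorem ident (i : ℕ) : IdentDistrib (Z0 i) (Z0 0) Pm Pm := by
  have h : IdentDistrib (fun ω : ℕ → ℕ => ω i) (fun ω : ℕ → ℕ => ω 0) Pm Pm :=
    ⟨(mp_eval i).measurable.aemeasurable, (mp_eval 0).measurable.aemeasurable, by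
      rw [(mp_eval i).map_eq, (mp_eval 0).map_eq]⟩
  exact h.comp measurable_g

theorem int_Z : Integrable (fun ω => ‖Z0 0 ω‖ ^ 2) Pm :=
  integrable_eval (fun k => ‖g k‖ ^ 2) 0 int_norm_sq

end Pool.Agent.X50.PV
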