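import Pool.Agent.X50.PV.Def

/-!
# Deterministic bounds for the perimeter
-/

namespace Pool.Agent.X50.PV

open MeasureTheory

variable {Ω : Type}

theorem norm_dir (θ : ℝ) : ‖dir θ‖ = 1 := by
  unfold dir
  rw [EuclideanSpace.norm_eq]
  simp [Fin.sum_univ_two]

theorem continuous_dir : Continuous dir := by
  unfold dir
  fun_prop

/-- support function as a finite maximum -/
noncomputable def hS (Z : ℕ → Ω → E2) (n : ℕ) (ω : Ω) (θ : ℝ) : ℝ :=
  (Finset.range (n + 1)).sup' ⟨0, by simp⟩ (fun k => inner ℝ (dir θ) (walk Z k ω))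

/-- the minimum -/
noncomputable def hI (Z : ℕ → Ω → E2) (n : ℕ) (ω : Ω) (θ : ℝ) : ℝ :=
  (Finset.range (n + 1)).inf' ⟨0, by simp⟩ (fun k => inner ℝ (dir θ) (walk Z k ω))

theorem continuous_hS (Z : ℕ → Ω → E2) (n : ℕ) (ω : Ω) : Continuous (hS Z n ω) := by
  unfold hS
  apply Continuous.finset_sup'_apply
  intro k _
  exact continuous_dir.inner continuous_const

theorem continuous_hI (Z : ℕ → Ω → E2) (n : ℕ) (ω : Ω) : Continuous (hI Z n ω) := by
  unfold hI
  apply Continuous.finset_inf'_apply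
  intro k _
  exact continuous_dir.inner continuous_const

theorem sSup_eq (Z : ℕ → Ω → E2) (n : ℕ) (ω : Ω) (θ : ℝ) :
    sSup ((fun x => inner ℝ (dir θ) x) '' convexHull ℝ {x | ∃ k ≤ n, x = walk Z k ω}) =
      hS Z n ω θ := by
  apply IsGreatest.csSup_eq
  constructor
  · obtain ⟨k, hk, hk2⟩ := Finset.exists_mem_eq_sup' (s := Finset.range (n + 1)) ⟨0, by simp⟩
      (fun k => inner ℝ (dir θ) (walk Z k ω))
    refine ⟨walk Z k ω, subset_convexHull ℝ _ ⟨k, ?_, rfl⟩, ?_⟩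
    · rw [Finset.mem_range] at hk; omega
    · unfold hS; rw [hk2]
  · rintro y ⟨x, hx, rfl⟩
    have hconv : Convex ℝ {x : E2 | inner ℝ (dir θ) x ≤ hS Z n ω θ} :=
      convex_halfSpace_le (innerₛₗ ℝ (dir θ)).isLinear _
    have hsub : {x | ∃ k ≤ n, x = walk Z k ω} ⊆ {x : E2 | inner ℝ (dir θ) x ≤ hS Z n ω θ} := by
      rintro x ⟨k, hk, rfl⟩
      show inner ℝ (dir θ) (walk Z k ω) ≤ hS Z n ω θ
      unfold hS
      exact Finset.le_sup' (fun k => inner ℝ (dir θ) (walk Z k ω))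
        (Finset.mem_range.mpr (Nat.lt_succ_of_le hk))
    exact convexHull_min hsub hconv hx

theorem sInf_eq (Z : ℕ → Ω → E2) (n : ℕ) (ω : Ω) (θ : ℝ) :
    sInf ((fun x => inner ℝ (dir θ) x) '' convexHull ℝ {x | ∃ k ≤ n, x = walk Z k ω}) =
      hI Z n ω θ := by
  apply IsLeast.csInf_eq
  constructor
  · obtain ⟨k, hk, hk2⟩ := Finset.exists_mem_eq_inf' (s := Finset.range (n + 1)) ⟨0, by simp⟩
      (fun k => inner ℝ (dir θ) (walk Z k ω))
    refine ⟨walk Z k ω, subset_convexHull ℝ _ ⟨k, ?_, rfl⟩, ?_⟩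
    · rw [Finset.mem_range] at hk; omega
    · unfold hI; rw [hk2]
  · rintro y ⟨x, hx, rfl⟩
    have hconv : Convex ℝ {x : E2 | hI Z n ω θ ≤ inner ℝ (dir θ) x} :=
      convex_halfSpace_ge (innerₛₗ ℝ (dir θ)).isLinear _
    have hsub : {x | ∃ k ≤ n, x = walk Z k ω} ⊆ {x : E2 | hI Z n ω θ ≤ inner ℝ (dir θ) x} := by
      rintro x ⟨k, hk, rfl⟩
      show hI Z n ω θ ≤ inner ℝ (dir θ) (walk Z k ω)
      unfold hI
      exact Finset.inf'_le (fun k => inner ℝ (dir θ) (walk Z k ω))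
        (Finset.mem_range.mpr (Nat.lt_succ_of_le hk))
    exact convexHull_min hsub hconv hx

theorem L_eq (Z : ℕ → Ω → E2) (n : ℕ) (ω : Ω) :
    L Z n ω = ∫ θ in (0 : ℝ)..Real.pi, (hS Z n ω θ - hI Z n ω θ) := by
  unfold L perim width
  simp only [sSup_eq, sInf_eq]

theorem inner_walk_le (Z : ℕ → Ω → E2) (n k : ℕ) (hk : k ≤ n) (ω : Ω) (θ : ℝ) :
    |inner ℝ (dir θ) (walk Z k ω)| ≤ ∑ i ∈ Finset.range n, ‖Z i ω‖ := by
  calc |inner ℝ (dir θ) (walk Z k ω)| ≤ ‖dir θ‖ * ‖walk Z k ω‖ := abs_real_inner_le_norm _ _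
    _ = ‖walk Z k ω‖ := by rw [norm_dir, one_mul]
    _ ≤ ∑ i ∈ Finset.range k, ‖Z i ω‖ := norm_sum_le _ _
    _ ≤ _ := Finset.sum_le_sum_of_subset_of_nonneg
      (Finset.range_mono hk) (fun _ _ _ => norm_nonneg _)

theorem hS_le (Z : ℕ → Ω → E2) (n : ℕ) (ω : Ω) (θ : ℝ) :
    hS Z n ω θ ≤ ∑ i ∈ Finset.range n, ‖Z i ω‖ := by
  unfold hS
  apply Finset.sup'_le
  intro k hk
  rw [Finset.mem_range] at hk
  exact (le_abs_self _).trans (inner_walk_le Z n k (by omega) ω θ)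

theorem le_hI (Z : ℕ → Ω → E2) (n : ℕ) (ω : Ω) (θ : ℝ) :
    -∑ i ∈ Finset.range n, ‖Z i ω‖ ≤ hI Z n ω θ := by
  unfold hI
  apply Finset.le_inf'
  intro k hk
  rw [Finset.mem_range] at hk
  exact (abs_le.mp (inner_walk_le Z n k (by omega) ω θ)).1

theorem L_le (Z : ℕ → Ω → E2) (n : ℕ) (ω : Ω) :
    L Z n ω ≤ 2 * Real.pi * ∑ i ∈ Finset.range n, ‖Z i ω‖ := by
  rw [L_eq]
  have h := intervalIntegral.integral_mono_on (μ := volume) (a := 0) (b := Real.pi) Real.pi_pos.le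
    (f := fun θ => hS Z n ω θ - hI Z n ω θ)
    (g := fun _ => 2 * ∑ i ∈ Finset.range n, ‖Z i ω‖)
    (((continuous_hS Z n ω).sub (continuous_hI Z n ω)).intervalIntegrable _ _)
    (continuous_const.intervalIntegrable _ _)
    (fun θ _ => by linarith [hS_le Z n ω θ, le_hI Z n ω θ])
  rw [intervalIntegral.integral_const] at h
  simp only [sub_zero, smul_eq_mul] at h
  linarith

theorem L_nonneg (Z : ℕ → Ω → E2) (n : ℕ) (ω : Ω) : 0 ≤ L Z n ω := by
  rw [L_eq]
  apply intervalIntegral.integral_nonneg Real.pi_pos.le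
  intro θ _
  have h1 : inner ℝ (dir θ) (walk Z 0 ω) ≤ hS Z n ω θ := by
    unfold hS
    exact Finset.le_sup' (fun k => inner ℝ (dir θ) (walk Z k ω)) (by simp)
  have h2 : hI Z n ω θ ≤ inner ℝ (dir θ) (walk Z 0 ω) := by
    unfold hI
    exact Finset.inf'_le (fun k => inner ℝ (dir θ) (walk Z k ω)) (by simp)
  linarith

theorem L_ge (Z : ℕ → Ω → E2) (n : ℕ) (ω : Ω) (i : ℕ) (hi : i < n) :
    2 * (Z i ω) 1 ≤ L Z n ω := by
  rw [L_eq]
  have hint : ∫ θ in (0 : ℝ)..Real.pi, ((Z i ω) 0 * Real.cos θ + (Z i ω) 1 * Real.sin θ) =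
      2 * (Z i ω) 1 := by
    rw [intervalIntegral.integral_add]
    · rw [intervalIntegral.integral_const_mul, intervalIntegral.integral_const_mul,
        integral_cos, integral_sin]
      simp
      ring
    · exact (continuous_const.mul Real.continuous_cos).intervalIntegrable _ _
    · exact (continuous_const.mul Real.continuous_sin).intervalIntegrable _ _
  rw [← hint]
  apply intervalIntegral.integral_mono_on Real.pi_pos.le
  · exact ((continuous_const.mul Real.continuous_cos).add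
      (continuous_const.mul Real.continuous_sin)).intervalIntegrable _ _
  · exact ((continuous_hS Z n ω).sub (continuous_hI Z n ω)).intervalIntegrable _ _
  · intro θ _
    have h1 : inner ℝ (dir θ) (walk Z (i + 1) ω) ≤ hS Z n ω θ := by
      unfold hS
      exact Finset.le_sup' (fun k => inner ℝ (dir θ) (walk Z k ω))
        (Finset.mem_range.mpr (by omega))
    have h2 : hI Z n ω θ ≤ inner ℝ (dir θ) (walk Z i ω) := by
      unfold hI
      exact Finset.inf'_le (fun k => inner ℝ (dir θ) (walk Z k ω))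
        (Finset.mem_range.mpr (by omega))
    have h3 : inner ℝ (dir θ) (walk Z (i + 1) ω) = inner ℝ (dir θ) (walk Z i ω) +
        inner ℝ (dir θ) (Z i ω) := by
      unfold walk
      rw [Finset.sum_range_succ, inner_add_right]
    have h4 : inner ℝ (dir θ) (Z i ω) =
        (Z i ω) 0 * Real.cos θ + (Z i ω) 1 * Real.sin θ := by
      unfold dir
      rw [PiLp.inner_apply]
      simp [Fin.sum_univ_two]
    linarith

end Pool.Agent.X50.PV
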