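import Pool.Agent.X50.PV.Hull

/-!
# The heavy-tailed walk
-/

namespace Pool.Agent.X50.PV

open MeasureTheory ProbabilityTheory Measure Filter Topology

/-- success probability -/
noncomputable def p0 : unitInterval := ⟨31 / 32, by norm_num, by norm_num⟩

theorem p0_ne : p0 ≠ 0 := by
  intro h
  have := congrArg Subtype.val h
  simp [p0] at this

theorem p0_val : (p0 : ℝ) = 31 / 32 := rfl

/-- the law of `K`: `P(K = k) = (31/32) (1/32)^k` -/
noncomputable def ν : Measure ℕ := geometricMeasure p0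

instance : IsProbabilityMeasure ν := by unfold ν; infer_instance

/-- the law of an i.i.d. sequence -/
noncomputable def Pm : Measure (ℕ → ℕ) := infinitePi (fun _ => ν)

instance : IsProbabilityMeasure Pm := by unfold Pm; infer_instance

/-- the step attached to `k` -/
noncomputable def g (k : ℕ) : E2 := !₂[1, 4 ^ k - 31 / 28]

/-- the steps -/
noncomputable def Z0 (i : ℕ) (ω : ℕ → ℕ) : E2 := g (ω i)

theorem mp_eval (i : ℕ) : MeasurePreserving (fun ω : ℕ → ℕ => ω i) Pm ν :=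
  measurePreserving_eval_infinitePi (fun _ => ν) i

theorem int_eval {E : Type} [NormedAddCommGroup E] [NormedSpace ℝ E] (f : ℕ → E) (i : ℕ) :
    ∫ ω, f (ω i) ∂Pm = ∫ k, f k ∂ν := by
  rw [← (mp_eval i).map_eq, integral_map (mp_eval i).measurable.aemeasurable]
  exact (StronglyMeasurable.of_discrete).aestronglyMeasurable

theorem integrable_eval {E : Type} [NormedAddCommGroup E] (f : ℕ → E) (i : ℕ)
    (h : Integrable f ν) : Integrable (fun ω : ℕ → ℕ => f (ω i)) Pm :=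
  (mp_eval i).integrable_comp_of_integrable h

theorem integrable_nu {E : Type} [NormedAddCommGroup E] (f : ℕ → E) :
    Integrable f ν ↔ Summable (fun n => (1 / 32 : ℝ) ^ n * (31 / 32) * ‖f n‖) := by
  unfold ν
  rw [integrable_geometricMeasure_iff p0_ne, p0_val]
  norm_num

theorem integral_nu (f : ℕ → ℝ) :
    ∫ k, f k ∂ν = ∑' n, (1 / 32 : ℝ) ^ n * (31 / 32) * f n := by
  unfold ν
  rw [integral_geometricMeasure p0_ne, p0_val]
  norm_num

theorem int4 : Integrable (fun k : ℕ => (4 : ℝ) ^ k) ν := by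
  rw [integrable_nu]
  have : (fun n : ℕ => (1 / 32 : ℝ) ^ n * (31 / 32) * ‖(4 : ℝ) ^ n‖) =
      fun n : ℕ => (1 / 8 : ℝ) ^ n * (31 / 32) := by
    ext n
    rw [Real.norm_of_nonneg (by positivity), show (1 / 8 : ℝ) = 1 / 32 * 4 by norm_num, mul_pow]
    ring
  rw [this]
  exact (summable_geometric_of_lt_one (by norm_num) (by norm_num)).mul_right _

theorem int16 : Integrable (fun k : ℕ => (16 : ℝ) ^ k) ν := by
  rw [integrable_nu]
  have : (fun n : ℕ => (1 / 32 : ℝ) ^ n * (31 / 32) * ‖(16 : ℝ) ^ n‖) =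
      fun n : ℕ => (1 / 2 : ℝ) ^ n * (31 / 32) := by
    ext n
    rw [Real.norm_of_nonneg (by positivity), show (1 / 2 : ℝ) = 1 / 32 * 16 by norm_num, mul_pow]
    ring
  rw [this]
  exact (summable_geometric_of_lt_one (by norm_num) (by norm_num)).mul_right _

theorem E4 : ∫ k, (4 : ℝ) ^ k ∂ν = 31 / 28 := by
  rw [integral_nu]
  have : (fun n : ℕ => (1 / 32 : ℝ) ^ n * (31 / 32) * (4 : ℝ) ^ n) =
      fun n : ℕ => (1 / 8 : ℝ) ^ n * (31 / 32) := by
    ext n
    rw [show (1 / 8 : ℝ) = 1 / 32 * 4 by norm_num, mul_pow]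
    ring
  rw [this, tsum_mul_right, tsum_geometric_of_lt_one (by norm_num) (by norm_num)]
  norm_num

theorem E16 : ∫ k, (16 : ℝ) ^ k ∂ν = 31 / 16 := by
  rw [integral_nu]
  have : (fun n : ℕ => (1 / 32 : ℝ) ^ n * (31 / 32) * (16 : ℝ) ^ n) =
      fun n : ℕ => (1 / 2 : ℝ) ^ n * (31 / 32) := by
    ext n
    rw [show (1 / 2 : ℝ) = 1 / 32 * 16 by norm_num, mul_pow]
    ring
  rw [this, tsum_mul_right, tsum_geometric_of_lt_one (by norm_num) (by norm_num)]
  norm_num

theorem sq_fun : (fun k : ℕ => ((4 : ℝ) ^ k - 31 / 28) ^ 2) =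
    fun k : ℕ => (16 : ℝ) ^ k - (31 / 14) * 4 ^ k + 961 / 784 := by
  ext k
  have : (16 : ℝ) ^ k = 4 ^ k * 4 ^ k := by rw [← mul_pow]; norm_num
  rw [this]; ring

theorem int_sq : Integrable (fun k : ℕ => ((4 : ℝ) ^ k - 31 / 28) ^ 2) ν := by
  rw [sq_fun]
  exact (int16.sub (int4.const_mul _)).add (integrable_const _)

theorem E_sq : ∫ k, ((4 : ℝ) ^ k - 31 / 28) ^ 2 ∂ν = 279 / 392 := by
  have h1 : Integrable (fun k : ℕ => (16 : ℝ) ^ k - (31 / 14) * 4 ^ k) ν :=
    int16.sub (int4.const_mul _)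
  have h2 : ∫ k, ((16 : ℝ) ^ k - (31 / 14) * 4 ^ k) ∂ν = 31 / 16 - (31 / 14) * (31 / 28) := by
    rw [integral_sub int16 (int4.const_mul (31 / 14)), integral_const_mul, E4, E16]
  rw [sq_fun, integral_add h1 (integrable_const _), h2, integral_const]
  simp
  norm_num

theorem norm_g_sq (k : ℕ) : ‖g k‖ ^ 2 = 1 + ((4 : ℝ) ^ k - 31 / 28) ^ 2 := by
  unfold g
  rw [EuclideanSpace.norm_sq_eq]
  simp [Fin.sum_univ_two]

theorem int_norm_sq : Integrable (fun k : ℕ => ‖g k‖ ^ 2) ν := by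
  simp only [norm_g_sq]
  exact (integrable_const _).add int_sq

theorem norm_g_le (k : ℕ) : ‖g k‖ ≤ 4 ^ k + 59 / 28 := by
  have h1 := norm_g_sq k
  have h2 : (0 : ℝ) < 4 ^ k := by positivity
  apply abs_le_of_sq_le_sq' _ (by positivity) |>.2
  rw [h1]
  nlinarith

theorem int_norm : Integrable (fun k : ℕ => ‖g k‖) ν := by
  refine Integrable.mono' (int4.add (integrable_const (59 / 28))) ?_ ?_
  · exact (StronglyMeasurable.of_discrete).aestronglyMeasurable
  · refine Filter.Eventually.of_forall (fun k => ?_)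
    rw [norm_norm]
    exact norm_g_le k

theorem int_g : Integrable g ν :=
  (integrable_norm_iff (StronglyMeasurable.of_discrete).aestronglyMeasurable).mp int_norm

theorem E_norm : ∫ k, ‖g k‖ ∂ν ≤ 45 / 14 := by
  calc ∫ k, ‖g k‖ ∂ν ≤ ∫ k, ((4 : ℝ) ^ k + 59 / 28) ∂ν :=
        integral_mono int_norm (int4.add (integrable_const _)) (fun k => norm_g_le k)
    _ = 45 / 14 := by
        rw [integral_add int4 (integrable_const _), E4, integral_const]
        simp
        norm_num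

theorem drift_eq : drift Pm Z0 = !₂[1, 0] := by
  unfold drift Z0
  rw [int_eval g 0]
  have hc : ∀ j : Fin 2, (∫ k, g k ∂ν) j = ∫ k, (g k) j ∂ν := by
    intro j
    exact ((EuclideanSpace.proj j : E2 →L[ℝ] ℝ).integral_comp_comm int_g).symm
  ext j
  rw [hc j]
  fin_cases j
  · simp [g]
  · have : (fun k => (g k) 1) = fun k : ℕ => (4 : ℝ) ^ k - 31 / 28 := by
      ext k; simp [g]
    show ∫ k, (g k) 1 ∂ν = _
    rw [this, integral_sub int4 (integrable_const _), E4, integral_const]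
    simp

theorem drift_ne : drift Pm Z0 ≠ 0 := by
  rw [drift_eq]
  intro h
  have := congrFun (congrArg (fun v : E2 => (v : Fin 2 → ℝ)) h) 0
  simp at this

theorem hat_drift : hat (drift Pm Z0) = !₂[1, 0] := by
  rw [drift_eq]
  unfold hat
  have : ‖(!₂[1, 0] : E2)‖ = 1 := by
    rw [EuclideanSpace.norm_eq]
    simp [Fin.sum_univ_two]
  rw [this]
  simp

theorem sig_par : sig Pm Z0 (hat (drift Pm Z0)) = 0 := by
  unfold sig
  rw [hat_drift, drift_eq]
  unfold Z0
  rw [int_eval (fun k => (inner ℝ (g k - !₂[1, 0]) (!₂[1, 0] : E2)) ^ 2) 0]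
  have : (fun k => (inner ℝ (g k - !₂[1, 0]) (!₂[1, 0] : E2)) ^ 2) = fun _ : ℕ => (0 : ℝ) := by
    ext k
    rw [PiLp.inner_apply]
    simp [g, Fin.sum_univ_two]
  rw [this]
  simp

theorem sig_perp : sig Pm Z0 (perp (hat (drift Pm Z0))) = 279 / 392 := by
  unfold sig
  rw [hat_drift, drift_eq]
  unfold Z0
  rw [int_eval (fun k => (inner ℝ (g k - !₂[1, 0]) (perp (!₂[1, 0] : E2))) ^ 2) 0, ← E_sq]
  congr 1
  ext k
  rw [PiLp.inner_apply]
  simp [g, perp, Fin.sum_univ_two]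

/-! ### measurability and integrability -/

theorem measurable_g : Measurable g := Measurable.of_discrete

theorem measurable_Z (i : ℕ) : Measurable (Z0 i) :=
  measurable_g.comp (measurable_pi_apply i)

theorem walk_congr (n : ℕ) (ω ω' : ℕ → ℕ) (h : ∀ i < n, ω i = ω' i) (k : ℕ) (hk : k ≤ n) :
    walk Z0 k ω = walk Z0 k ω' := by
  unfold walk Z0
  apply Finset.sum_congr rfl
  intro i hi
  rw [Finset.mem_range] at hi
  rw [h i (by omega)]

theorem L_congr (n : ℕ) (ω ω' : ℕ → ℕ) (h : ∀ i < n, ω i = ω' i) : L Z0 n ω = L Z0 n ω' := by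
  unfold L
  have : {x | ∃ k ≤ n, x = walk Z0 k ω} = {x | ∃ k ≤ n, x = walk Z0 k ω'} := by
    ext x
    constructor
    · rintro ⟨k, hk, hx⟩
      exact ⟨k, hk, by rw [hx, walk_congr n ω ω' h k hk]⟩
    · rintro ⟨k, hk, hx⟩
      exact ⟨k, hk, by rw [hx, walk_congr n ω ω' h k hk]⟩
  rw [this]

theorem measurable_L (n : ℕ) : Measurable (L Z0 n) := by
  have h1 : L Z0 n = (fun x : Fin n → ℕ => L Z0 n (fun i => if h : i < n then x ⟨i, h⟩ else 0)) ∘
      (fun (ω : ℕ → ℕ) (i : Fin n) => ω i) := by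
    ext ω
    apply L_congr
    intro i hi
    simp [hi]
  rw [h1]
  exact Measurable.of_discrete.comp (by fun_prop)

theorem memLp_norm (i : ℕ) : MemLp (fun ω => ‖Z0 i ω‖) 2 Pm := by
  rw [memLp_two_iff_integrable_sq ((measurable_Z i).norm.aestronglyMeasurable)]
  exact integrable_eval (fun k => ‖g k‖ ^ 2) i int_norm_sq

theorem memLp_L (n : ℕ) : MemLp (L Z0 n) 2 Pm := by
  have h : MemLp (fun ω => 2 * Real.pi * ∑ i ∈ Finset.range n, ‖Z0 i ω‖) 2 Pm :=
    (memLp_finsetSum (Finset.range n) (fun i _ => memLp_norm i)).const_mul _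
  refine h.mono (measurable_L n).aestronglyMeasurable (Filter.Eventually.of_forall (fun ω => ?_))
  rw [Real.norm_of_nonneg (L_nonneg Z0 n ω)]
  exact (L_le Z0 n ω).trans (le_abs_self _)

theorem mean_L (n : ℕ) : ∫ ω, L Z0 n ω ∂Pm ≤ 21 * n := by
  have hint : ∀ i, Integrable (fun ω => ‖Z0 i ω‖) Pm :=
    fun i => integrable_eval (fun k => ‖g k‖) i int_norm
  calc ∫ ω, L Z0 n ω ∂Pm ≤ ∫ ω, 2 * Real.pi * ∑ i ∈ Finset.range n, ‖Z0 i ω‖ ∂Pm := by
        apply integral_mono ((memLp_L n).integrable (by norm_num))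
        · exact (integrable_finsetSum _ (fun i _ => hint i)).const_mul _
        · exact fun ω => L_le Z0 n ω
    _ = 2 * Real.pi * (n * ∫ k, ‖g k‖ ∂ν) := by
        rw [integral_const_mul, integral_finsetSum _ (fun i _ => hint i)]
        congr 1
        have h0 : ∀ i, ∫ ω, ‖Z0 i ω‖ ∂Pm = ∫ k, ‖g k‖ ∂ν := fun i => int_eval (fun k => ‖g k‖) i
        simp only [h0]
        simp
    _ ≤ 2 * Real.pi * (n * (45 / 14)) := by
        gcongr
        exact E_norm
    _ ≤ 21 * n := by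
        have h1 := Real.pi_lt_d2
        have h2 : (0 : ℝ) ≤ n := Nat.cast_nonneg n
        nlinarith

/-! ### the large jump -/

/-- `P(K = k)` -/
noncomputable def q (k : ℕ) : ℝ := (1 / 32) ^ k * (31 / 32)

theorem nu_singleton (k : ℕ) : ν {k} = ENNReal.ofReal (q k) := by
  unfold ν q
  rw [geometricMeasure_singleton p0_ne, p0_val]
  norm_num

theorem q_nonneg (k : ℕ) : 0 ≤ q k := by unfold q; positivity

theorem q_le_one (k : ℕ) : q k ≤ 1 := by
  unfold q
  have : (1 / 32 : ℝ) ^ k ≤ 1 := pow_le_one₀ (by norm_num) (by norm_num)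
  linarith

theorem prob_miss (n k : ℕ) :
    Pm {ω | ∃ i < n, ω i = k}ᶜ = ENNReal.ofReal ((1 - q k) ^ n) := by
  have h1 : {ω : ℕ → ℕ | ∃ i < n, ω i = k}ᶜ =
      Set.pi (Finset.range n : Set ℕ) (fun _ => ({k}ᶜ : Set ℕ)) := by
    ext ω
    simp only [Set.mem_compl_iff, Set.mem_ofPred_eq, Set.mem_pi, Finset.coe_range, Set.mem_Iio,
      Set.mem_singleton_iff]
    push Not
    rfl
  rw [h1]
  unfold Pm
  rw [infinitePi_pi (μ := fun _ : ℕ => ν) (s := Finset.range n)
    (t := fun _ => ({k}ᶜ : Set ℕ)) (fun i _ => MeasurableSet.of_discrete)]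
  rw [Finset.prod_const, Finset.card_range, prob_compl_eq_one_sub (MeasurableSet.of_discrete),
    nu_singleton, ← ENNReal.ofReal_one, ← ENNReal.ofReal_sub _ (q_nonneg k),
    ENNReal.ofReal_pow (by linarith [q_le_one k])]

theorem prob_hit (n k : ℕ) (hq : n * q k ≤ 1) :
    n * q k / 2 ≤ Pm.real {ω | ∃ i < n, ω i = k} := by
  have hmeas : MeasurableSet {ω : ℕ → ℕ | ∃ i < n, ω i = k} := by
    have : {ω : ℕ → ℕ | ∃ i < n, ω i = k} =
        ⋃ i ∈ Finset.range n, (fun ω : ℕ → ℕ => ω i) ⁻¹' {k} := by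
      ext ω; simp
    rw [this]
    exact Finset.measurableSet_biUnion _ (fun i _ =>
      (measurable_pi_apply i) (MeasurableSet.of_discrete))
  have h1 : Pm.real {ω | ∃ i < n, ω i = k}ᶜ = (1 - q k) ^ n := by
    rw [measureReal_def, prob_miss, ENNReal.toReal_ofReal]
    exact pow_nonneg (by linarith [q_le_one k]) n
  rw [probReal_compl_eq_one_sub hmeas] at h1
  have h2 : Pm.real {ω | ∃ i < n, ω i = k} = 1 - (1 - q k) ^ n := by linarith
  rw [h2]
  have hq0 := q_nonneg k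
  have hq1 := q_le_one k
  have h3 : 1 + n * q k ≤ (1 + q k) ^ n := one_add_mul_le_pow (by linarith) n
  have h4 : (1 - q k) ^ n * (1 + q k) ^ n ≤ 1 := by
    rw [← mul_pow]
    apply pow_le_one₀
    · nlinarith
    · nlinarith
  have h5 : 0 ≤ (1 - q k) ^ n := pow_nonneg (by linarith) n
  have h6 : (1 - q k) ^ n * (1 + n * q k) ≤ 1 := by
    calc (1 - q k) ^ n * (1 + n * q k) ≤ (1 - q k) ^ n * (1 + q k) ^ n := by gcongr
      _ ≤ 1 := h4
  have h7 : 0 ≤ n * q k := by positivity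
  nlinarith

theorem var_ge (n k : ℕ) (hn : 1 ≤ n) (hk : 24 * n ≤ 4 ^ k) :
    (21 * n) ^ 2 * (n * q k / 2) ≤ Var[L Z0 n; Pm] := by
  have hn' : (1 : ℝ) ≤ n := by exact_mod_cast hn
  have hk' : 24 * (n : ℝ) ≤ 4 ^ k := by exact_mod_cast hk
  have hq : n * q k ≤ 1 := by
    have h1 : q k ≤ 1 / 4 ^ k := by
      unfold q
      have : (1 / 32 : ℝ) ^ k ≤ (1 / 4) ^ k := pow_le_pow_left₀ (by norm_num) (by norm_num) k
      rw [one_div_pow] at this
      have h3 : (0 : ℝ) < 1 / 4 ^ k := by positivity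
      have h4 : (0 : ℝ) ≤ (1 / 32) ^ k := by positivity
      rw [one_div_pow] at this
      nlinarith [one_div_pow (32 : ℝ) k]
    have h2 : n * (1 / (4 : ℝ) ^ k) ≤ 1 := by
      rw [mul_one_div, div_le_one (by positivity)]
      linarith
    calc n * q k ≤ n * (1 / (4 : ℝ) ^ k) := by gcongr
      _ ≤ 1 := h2
  have hc : (0 : ℝ) < 21 * n := by linarith
  have hcheb := meas_ge_le_variance_div_sq (memLp_L n) hc
  have hsub : {ω : ℕ → ℕ | ∃ i < n, ω i = k} ⊆
      {ω | 21 * (n : ℝ) ≤ |L Z0 n ω - ∫ ω, L Z0 n ω ∂Pm|} := by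
    rintro ω ⟨i, hi, hik⟩
    have h1 := L_ge Z0 n ω i hi
    have h2 : (Z0 i ω) 1 = 4 ^ k - 31 / 28 := by
      unfold Z0 g
      rw [hik]
      simp
    have h3 := mean_L n
    show 21 * (n : ℝ) ≤ |L Z0 n ω - ∫ ω, L Z0 n ω ∂Pm|
    refine le_trans ?_ (le_abs_self _)
    rw [h2] at h1
    linarith
  have hle : Pm {ω : ℕ → ℕ | ∃ i < n, ω i = k} ≤
      ENNReal.ofReal (Var[L Z0 n; Pm] / (21 * n) ^ 2) := (measure_mono hsub).trans hcheb
  have hvar : 0 ≤ Var[L Z0 n; Pm] / (21 * n) ^ 2 := by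
    apply div_nonneg (variance_nonneg _ _) (by positivity)
  have hreal : Pm.real {ω : ℕ → ℕ | ∃ i < n, ω i = k} ≤ Var[L Z0 n; Pm] / (21 * n) ^ 2 := by
    rw [measureReal_def]
    exact ENNReal.toReal_le_of_le_ofReal hvar hle
  have h8 := (prob_hit n k hq).trans hreal
  rw [le_div_iff₀ (by positivity)] at h8
  linarith

theorem var_sqrt (n : ℕ) (hn : 1 ≤ n) : Real.sqrt n / 500 ≤ Var[L Z0 n; Pm] := by
  have hn' : (1 : ℝ) ≤ n := by exact_mod_cast hn
  obtain ⟨k, hk1, hk2⟩ : ∃ k, 24 * n ≤ 4 ^ k ∧ 4 ^ k ≤ 96 * n := by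
    refine ⟨Nat.clog 4 (24 * n), Nat.le_pow_clog (by norm_num) _, ?_⟩
    have h1 := Nat.pow_pred_clog_lt_self (b := 4) (by norm_num) (x := 24 * n) (by omega)
    have h2 : 0 < Nat.clog 4 (24 * n) := Nat.clog_pos (by norm_num) (by omega)
    obtain ⟨m, hm⟩ := Nat.exists_eq_succ_of_ne_zero h2.ne'
    rw [hm] at h1 ⊢
    simp only [Nat.pred_succ] at h1
    rw [Nat.succ_eq_add_one, pow_succ]
    omega
  refine le_trans ?_ (var_ge n k hn hk1)
  have hk2' : (4 : ℝ) ^ k ≤ 96 * n := by exact_mod_cast hk2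
  set s := Real.sqrt n with hs
  have hs0 : 0 < s := Real.sqrt_pos.mpr (by linarith)
  have hss : s * s = n := Real.mul_self_sqrt (by linarith)
  -- `2^k ≤ 10 s`
  have h2k : (2 : ℝ) ^ k ≤ 10 * s := by
    have h4 : ((2 : ℝ) ^ k) ^ 2 ≤ (10 * s) ^ 2 := by
      have : ((2 : ℝ) ^ k) ^ 2 = 4 ^ k := by
        rw [← pow_mul, mul_comm, pow_mul]; norm_num
      rw [this]
      nlinarith
    exact (abs_le_of_sq_le_sq' h4 (by positivity)).2
  have h32 : (32 : ℝ) ^ k ≤ (96 * n) * (96 * n) * (10 * s) := by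
    have : (32 : ℝ) ^ k = 4 ^ k * 4 ^ k * 2 ^ k := by
      rw [← mul_pow, ← mul_pow]; norm_num
    rw [this]
    have h0 : (0 : ℝ) < 4 ^ k := by positivity
    have h0' : (0 : ℝ) < 2 ^ k := by positivity
    gcongr
  have hq : 31 / 32 / ((96 * n) * (96 * n) * (10 * s)) ≤ q k := by
    unfold q
    rw [one_div_pow, one_div_mul_eq_div]
    apply div_le_div_of_nonneg_left (by norm_num) (by positivity) h32
  calc s / 500 ≤ (21 * n) ^ 2 * (n * (31 / 32 / ((96 * n) * (96 * n) * (10 * s))) / 2) := by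
        have e : (21 * (n : ℝ)) ^ 2 * (n * (31 / 32 / ((96 * n) * (96 * n) * (10 * s))) / 2) =
            (441 * 31 / (32 * 92160 * 2)) * (n / s) := by
          have hn0 : (n : ℝ) ≠ 0 := by linarith
          field_simp
          ring
        have e2 : (n : ℝ) / s = s := by
          rw [← hss]; field_simp
        rw [e, e2]
        nlinarith
    _ ≤ _ := by gcongr

theorem tendsto_ratio :
    Tendsto (fun n : ℕ => Var[L Z0 n; Pm] / Real.log n) atTop atTop := by
  have h1 : Tendsto (fun x : ℝ => Real.log x / x ^ (1 / 2 : ℝ)) atTop (𝓝 0) :=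
    (isLittleO_log_rpow_atTop (by norm_num)).tendsto_div_nhds_zero
  have h2 : Tendsto (fun x : ℝ => Real.log x / x ^ (1 / 2 : ℝ)) atTop (𝓝[>] 0) := by
    rw [tendsto_nhdsWithin_iff]
    refine ⟨h1, ?_⟩
    filter_upwards [eventually_gt_atTop (1 : ℝ)] with x hx
    exact div_pos (Real.log_pos hx) (Real.rpow_pos_of_pos (by linarith) _)
  have h3 : Tendsto (fun n : ℕ => (Real.log n / (n : ℝ) ^ (1 / 2 : ℝ))⁻¹) atTop atTop :=
    (h2.inv_tendsto_nhdsGT_zero).comp tendsto_natCast_atTop_atTop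
  have h4 : Tendsto (fun n : ℕ => (1 / 500 : ℝ) * (Real.log n / (n : ℝ) ^ (1 / 2 : ℝ))⁻¹)
      atTop atTop := h3.const_mul_atTop (by norm_num)
  refine tendsto_atTop_mono' atTop ?_ h4
  filter_upwards [eventually_ge_atTop 3] with n hn
  have hlog : 0 < Real.log n := Real.log_pos (by exact_mod_cast (by omega : 1 < n))
  have h5 := var_sqrt n (by omega)
  rw [inv_div, ← Real.sqrt_eq_rpow, ← mul_div_assoc]
  gcongr
  linarith

end Pool.Agent.X50.PV
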